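import Pool.Agent.H13.CA.Grp

/-!
PROOF.  `exists_root_coe`: in `k` algebraically closed `Y ^ q - Y` (`q = p ^ h`) is separable (derivative `-1`), so it has `q`
roots in `k`; their images are `q` roots in `L`, and a polynomial of degree `q` has at most `q` roots.
`descend`: take the series with the chosen preimages of the coefficients; all axioms follow from the injectivity of
`MvPowerSeries.map φ` (`map_subst`, `FormalGroup.map`).  `IsHom.of_map`: the same.
-/

open PowerSeries

namespace Pool.Agent.H74.LA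

open Pool.Agent.H13.CA

private theorem mv_inj {R S : Type*} [CommRing R] [CommRing S] (φ : R →+* S)
    (hφ : Function.Injective φ) {σ : Type*} {f g : MvPowerSeries σ R}
    (h : MvPowerSeries.map φ f = MvPowerSeries.map φ g) : f = g := by
  ext d
  apply hφ
  rw [← MvPowerSeries.coeff_map, ← MvPowerSeries.coeff_map, h]

theorem exists_root_coe {k L : Type*} [Field k] [IsAlgClosed k] [Field L] [Algebra k L] (p : ℕ)
    [Fact p.Prime] [CharP k p] {h : ℕ} (hh : 1 ≤ h) {c : L} (hc : c ^ p ^ h = c) :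
    ∃ c₀ : k, algebraMap k L c₀ = c ∧ c₀ ^ p ^ h = c₀ := by
  have hq : 1 < p ^ h := Nat.one_lt_pow (by omega) (Fact.out : p.Prime).one_lt
  set P : Polynomial k := Polynomial.X ^ p ^ h - Polynomial.X with hP
  have hP0 : P ≠ 0 := FiniteField.X_pow_card_pow_sub_X_ne_zero k (by omega) (Fact.out : p.Prime).one_lt
  have hs : P.Splits := IsAlgClosed.splits P
  have h1 := hs.eq_prod_roots
  have h2 := congrArg (Polynomial.eval₂ (algebraMap k L) c) h1
  have h3 : Polynomial.eval₂ (algebraMap k L) c P = 0 := by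
    rw [hP, Polynomial.eval₂_sub, Polynomial.eval₂_pow, Polynomial.eval₂_X, hc, sub_self]
  rw [h3, Polynomial.eval₂_mul, Polynomial.eval₂_C] at h2
  have h4 : algebraMap k L P.leadingCoeff ≠ 0 := by
    rw [Ne, _root_.map_eq_zero]
    exact Polynomial.leadingCoeff_ne_zero.2 hP0
  have h5 : Polynomial.eval₂ (algebraMap k L) c
      (Multiset.map (fun a => Polynomial.X - Polynomial.C a) P.roots).prod = 0 :=
    (mul_eq_zero.1 h2.symm).resolve_left h4
  rw [← Polynomial.coe_eval₂RingHom, map_multiset_prod, Multiset.prod_eq_zero_iff,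
    Multiset.map_map, Multiset.mem_map] at h5
  obtain ⟨a, ha, ha'⟩ := h5
  rw [Function.comp_apply, Polynomial.coe_eval₂RingHom, Polynomial.eval₂_sub,
    Polynomial.eval₂_X, Polynomial.eval₂_C, sub_eq_zero] at ha'
  refine ⟨a, ha'.symm, ?_⟩
  have h6 := (Polynomial.mem_roots hP0).1 ha
  rw [Polynomial.IsRoot.def, hP, Polynomial.eval_sub, Polynomial.eval_pow, Polynomial.eval_X,
    sub_eq_zero] at h6
  exact h6

theorem descend {R S : Type*} [CommRing R] [CommRing S] (φ : R →+* S)
    (hφ : Function.Injective φ) (G : FormalGroup S)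
    (hG : ∀ e, ∃ r : R, φ r = MvPowerSeries.coeff e G.toPowerSeries) :
    ∃ G₀ : FormalGroup R, G₀.map φ = G := by
  choose r hr using hG
  let F₀ : MvPowerSeries (Fin 2) R := r
  have hF : MvPowerSeries.map φ F₀ = G.toPowerSeries := by
    ext e
    rw [MvPowerSeries.coeff_map]
    exact hr e
  have h0 : MvPowerSeries.constantCoeff F₀ = 0 := by
    apply hφ
    rw [← MvPowerSeries.constantCoeff_map, hF, G.zero_constantCoeff, map_zero]
  have hX : ∀ i : Fin 3, PowerSeries.HasSubst (MvPowerSeries.X i : MvPowerSeries (Fin 3) R) :=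
    fun i => PowerSeries.HasSubst.X i
  have hsF : ∀ i j : Fin 3, PowerSeries.HasSubst (MvPowerSeries.subst
      ![(MvPowerSeries.X i : MvPowerSeries (Fin 3) R), MvPowerSeries.X j] F₀) := fun i j =>
    MvPowerSeries.IsNilpotent_subst (hasSubst_pair (hX i) (hX j))
      (by rw [h0]; exact IsNilpotent.zero)
  refine ⟨⟨F₀, h0, ?_, ?_, ?_⟩, ?_⟩
  · apply hφ
    rw [← MvPowerSeries.coeff_map, hF, G.lin_coeff_X, map_one]
  · apply hφ
    rw [← MvPowerSeries.coeff_map, hF, G.lin_coeff_Y, map_one]
  · apply mv_inj φ hφ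
    rw [map_pair (hsF _ _) (hX _), map_pair (hX _) (hX _), map_pair (hX _) (hsF _ _),
      map_pair (hX _) (hX _), MvPowerSeries.map_X, MvPowerSeries.map_X, MvPowerSeries.map_X, hF]
    exact G.assoc
  · exact FormalGroup.ext hF

theorem isComm_of_map {R S : Type*} [CommRing R] [CommRing S] (φ : R →+* S)
    (hφ : Function.Injective φ) {G : FormalGroup R} (h : (G.map φ).IsComm) : G.IsComm := by
  refine ⟨?_⟩
  apply mv_inj φ hφ
  rw [map_pair (PowerSeries.HasSubst.X 1) (PowerSeries.HasSubst.X 0), MvPowerSeries.map_X,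
    MvPowerSeries.map_X]
  exact h.comm

theorem isHom_of_map {R S : Type*} [CommRing R] [CommRing S] (φ : R →+* S)
    (hφ : Function.Injective φ) {F G : FormalGroup R} {f : R⟦X⟧}
    (h : IsHom (F.map φ) (G.map φ) (PowerSeries.map φ f)) : IsHom F G f := by
  have h0 : PowerSeries.constantCoeff f = 0 := by
    apply hφ
    have h1 := h.1
    rw [← PowerSeries.coeff_zero_eq_constantCoeff_apply, PowerSeries.coeff_map] at h1
    rw [← PowerSeries.coeff_zero_eq_constantCoeff_apply, h1, map_zero]
  refine ⟨h0, ?_⟩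
  apply mv_inj φ hφ
  rw [PowerSeries.map_subst (hs_F F), map_pair (hs_subst (PowerSeries.HasSubst.X 0) h0)
    (hs_subst (PowerSeries.HasSubst.X 1) h0), PowerSeries.map_subst (PowerSeries.HasSubst.X 0),
    PowerSeries.map_subst (PowerSeries.HasSubst.X 1), MvPowerSeries.map_X, MvPowerSeries.map_X]
  exact h.2

end Pool.Agent.H74.LA
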