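import Pool.Agent.H74.LA.Nrm
import Pool.Agent.H74.LA.Desc

/-!
# A form over `k` with `[p] = x ^ q`; homomorphisms are defined over `k`
-/

open PowerSeries

namespace Pool.Agent.H74.LA

open Pool.Agent.H13.CA

variable {L : Type*} [Field L] (p : ℕ) [Fact p.Prime] [CharP L p]

theorem map_inj {R S : Type*} [CommRing R] [CommRing S] {φ : R →+* S}
    (hφ : Function.Injective φ) {f g : R⟦X⟧} (h : map φ f = map φ g) : f = g := by
  ext n
  have := congrArg (coeff n) h
  rw [coeff_map, coeff_map] at this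
  exact hφ this

/-- a form over `k` with `[p] = x ^ q` -/
theorem laz_form [IsSepClosed L] {k : Type*} [Field k] [IsAlgClosed k] [CharP k p] [Algebra k L]
    {h : ℕ} (hh : 1 ≤ h) {G : FormalGroup L} (hG : G.IsComm) (hG' : HasHeight p h G) :
    ∃ (Γ : FormalGroup k) (β : PowerSeries L), Γ.IsComm ∧ mulSer Γ p = PowerSeries.X ^ p ^ h ∧
      IsHom G (Γ.map (algebraMap k L)) β ∧ IsUnit (PowerSeries.coeff 1 β) := by
  have hinj : Function.Injective (algebraMap k L) := (algebraMap k L).injective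
  obtain ⟨G', β, h1, h2, h3, h4, _⟩ := exists_norm p hh hG hG'
  obtain ⟨Γ, hΓ⟩ := descend (algebraMap k L) hinj G' (fun e => by
    obtain ⟨c, hc, _⟩ := exists_root_coe (k := k) p hh (fix_coeff p h3 h4 e)
    exact ⟨c, hc⟩)
  subst hΓ
  refine ⟨Γ, β, isComm_of_map _ hinj h3, ?_, h1, h2.isUnit⟩
  apply map_inj hinj
  rw [← mulSer_map, h4, map_pow, map_X]

/-- homomorphisms over `L` between groups over `k` with `[p] = x ^ q` are defined over `k` -/
theorem hom_const {k : Type*} [Field k] [IsAlgClosed k] [CharP k p] [Algebra k L] {h : ℕ}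
    (hh : 1 ≤ h) {G H : FormalGroup k} (hG' : mulSer G p = PowerSeries.X ^ p ^ h)
    (hH' : mulSer H p = PowerSeries.X ^ p ^ h) {θ : PowerSeries L}
    (hθ : IsHom (G.map (algebraMap k L)) (H.map (algebraMap k L)) θ) :
    ∃ θ₀ : PowerSeries k, IsHom G H θ₀ ∧ PowerSeries.map (algebraMap k L) θ₀ = θ ∧
      ∀ i, PowerSeries.coeff i θ₀ ^ p ^ h = PowerSeries.coeff i θ₀ := by
  have hinj : Function.Injective (algebraMap k L) := (algebraMap k L).injective
  have h1 : mulSer (G.map (algebraMap k L)) p = (X : L⟦X⟧) ^ p ^ h := by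
    rw [mulSer_map, hG', map_pow, map_X]
  have h2 : mulSer (H.map (algebraMap k L)) p = (X : L⟦X⟧) ^ p ^ h := by
    rw [mulSer_map, hH', map_pow, map_X]
  have h3 := fun i => exists_root_coe (k := k) p hh (hom_fix p h1 h2 hθ i)
  choose c hc hc2 using h3
  have h4 : map (algebraMap k L) (PowerSeries.mk c) = θ := by
    ext n
    rw [coeff_map, coeff_mk, hc]
  refine ⟨PowerSeries.mk c, ?_, h4, fun i => by rw [coeff_mk]; exact hc2 i⟩
  apply isHom_of_map _ hinj
  rw [h4]
  exact hθ

end Pool.Agent.H74.LA
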