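import Pool.Agent.H13.CA.Grp

/-!
PROOF.  `mulSer_isHom`: induction on `n`, `F (F (a, b), F (c, d)) = F (F (a, c), F (b, d))` for a commutative `F`
(`FormalGroup.assoc'`, `FormalGroup.comm'`; `a = [n] x`, `b = [n] y`, `c = x`, `d = y`).
`coeff_one_mulSer`: `F (a, b) = a + b + (terms of degree ≥ 2)`.
`fix_coeff`: `[p]_G = x ^ q` is an endomorphism: `G (x, y) ^ q = G (x ^ q, y ^ q)`; the left side is
`G^(q) (x ^ q, y ^ q)` (Frobenius on the coefficients; `frobenius` is a ring homomorphism, `MvPowerSeries` has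
characteristic `p`); compare the coefficients of `x ^ (q i) y ^ (q j)`.
`hom_fix`: `θ (x ^ q) = θ (x) ^ q` (`IsHom.mulSer`), compare the coefficients of `x ^ (q i)`.
-/

open PowerSeries

namespace Pool.Agent.H74.LA

open Pool.Agent.H13.CA

private theorem fix_four {R : Type*} [CommRing R] {σ : Type*} {F : FormalGroup R} (hF : F.IsComm)
    {a b c d : MvPowerSeries σ R} (ha : PowerSeries.HasSubst a) (hb : PowerSeries.HasSubst b)
    (hc : PowerSeries.HasSubst c) (hd : PowerSeries.HasSubst d) :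
    MvPowerSeries.subst ![MvPowerSeries.subst ![a, b] F.toPowerSeries,
      MvPowerSeries.subst ![c, d] F.toPowerSeries] F.toPowerSeries =
    MvPowerSeries.subst ![MvPowerSeries.subst ![a, c] F.toPowerSeries,
      MvPowerSeries.subst ![b, d] F.toPowerSeries] F.toPowerSeries := by
  have h := add_add_add_comm (G := F.Point σ) ⟨a, ha⟩ ⟨b, hb⟩ ⟨c, hc⟩ ⟨d, hd⟩
  exact congrArg Subtype.val h

theorem mulSer_isHom {R : Type*} [CommRing R] {F : FormalGroup R} (hF : F.IsComm) (n : ℕ) :
    IsHom F F (mulSer F n) := by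
  refine ⟨cc_mulSer F n, ?_⟩
  have hX0 : PowerSeries.HasSubst (MvPowerSeries.X 0 : MvPowerSeries (Fin 2) R) :=
    PowerSeries.HasSubst.X 0
  have hX1 : PowerSeries.HasSubst (MvPowerSeries.X 1 : MvPowerSeries (Fin 2) R) :=
    PowerSeries.HasSubst.X 1
  induction n with
  | zero =>
    have h1 : PowerSeries.subst F.toPowerSeries (0 : R⟦X⟧) = 0 := by
      rw [← PowerSeries.coe_substAlgHom (hs_F F), map_zero]
    have h2 : PowerSeries.subst (MvPowerSeries.X 0 : MvPowerSeries (Fin 2) R) (0 : R⟦X⟧) = 0 := by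
      rw [← PowerSeries.coe_substAlgHom hX0, map_zero]
    have h3 : PowerSeries.subst (MvPowerSeries.X 1 : MvPowerSeries (Fin 2) R) (0 : R⟦X⟧) = 0 := by
      rw [← PowerSeries.coe_substAlgHom hX1, map_zero]
    change PowerSeries.subst F.toPowerSeries (0 : R⟦X⟧) =
      MvPowerSeries.subst ![PowerSeries.subst (MvPowerSeries.X 0 : MvPowerSeries (Fin 2) R)
        (0 : R⟦X⟧), PowerSeries.subst (MvPowerSeries.X 1 : MvPowerSeries (Fin 2) R) (0 : R⟦X⟧)]
        F.toPowerSeries
    rw [h1, h2, h3]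
    exact (F.add_zero PowerSeries.HasSubst.zero).symm
  | succ n ih =>
    have hA := hs_subst hX0 (cc_mulSer F n)
    have hB := hs_subst hX1 (cc_mulSer F n)
    change PowerSeries.subst F.toPowerSeries
        (MvPowerSeries.subst ![mulSer F n, (X : R⟦X⟧)] F.toPowerSeries : R⟦X⟧) =
      MvPowerSeries.subst ![PowerSeries.subst (MvPowerSeries.X 0 : MvPowerSeries (Fin 2) R)
        (MvPowerSeries.subst ![mulSer F n, (X : R⟦X⟧)] F.toPowerSeries : R⟦X⟧),
        PowerSeries.subst (MvPowerSeries.X 1 : MvPowerSeries (Fin 2) R)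
        (MvPowerSeries.subst ![mulSer F n, (X : R⟦X⟧)] F.toPowerSeries : R⟦X⟧)]
        F.toPowerSeries
    rw [subst_pair (hs_zero (cc_mulSer F n)) PowerSeries.HasSubst.X' (hs_F F),
      subst_pair (hs_zero (cc_mulSer F n)) PowerSeries.HasSubst.X' hX0,
      subst_pair (hs_zero (cc_mulSer F n)) PowerSeries.HasSubst.X' hX1,
      PowerSeries.subst_X (hs_F F), PowerSeries.subst_X hX0, PowerSeries.subst_X hX1, ih]
    have h4 : F.toPowerSeries = MvPowerSeries.subst ![MvPowerSeries.X 0, MvPowerSeries.X 1]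
        F.toPowerSeries := by
      rw [pair_X, MvPowerSeries.subst_self]
      rfl
    have h6 := fix_four hF hA hB hX0 hX1
    rw [← h4] at h6
    exact h6

theorem constantCoeff_mulSer {R : Type*} [CommRing R] (F : FormalGroup R) (n : ℕ) :
    constantCoeff (mulSer F n) = 0 := cc_mulSer F n

private theorem fix_lin {R : Type*} [CommRing R] (F : FormalGroup R) {a b : R⟦X⟧}
    (ha : constantCoeff a = 0) (hb : constantCoeff b = 0) :
    coeff 1 (MvPowerSeries.subst ![a, b] F.toPowerSeries : R⟦X⟧) = coeff 1 a + coeff 1 b := by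
  have hpr : ∀ d : Fin 2 →₀ ℕ, (d.prod fun s e => (![a, b] s) ^ e) = a ^ d 0 * b ^ d 1 := by
    intro d
    rw [Finsupp.prod_fintype _ _ fun _ => pow_zero _, Fin.prod_univ_two]
    rfl
  have hz : ∀ m n : ℕ, 2 ≤ m + n → coeff 1 (a ^ m * b ^ n) = 0 := by
    intro m n hmn
    have h1 : (X : R⟦X⟧) ^ m ∣ a ^ m := pow_dvd_pow_of_dvd (PowerSeries.X_dvd_iff.2 ha) m
    have h2 : (X : R⟦X⟧) ^ n ∣ b ^ n := pow_dvd_pow_of_dvd (PowerSeries.X_dvd_iff.2 hb) n
    have h3 : (X : R⟦X⟧) ^ (m + n) ∣ a ^ m * b ^ n := by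
      rw [pow_add]
      exact mul_dvd_mul h1 h2
    exact PowerSeries.X_pow_dvd_iff.1 h3 1 (by omega)
  have hd : ∀ d : Fin 2 →₀ ℕ, MvPowerSeries.coeff d F.toPowerSeries •
      MvPowerSeries.coeff (Finsupp.single () 1) (d.prod fun s e => (![a, b] s) ^ e) =
      MvPowerSeries.coeff d F.toPowerSeries * coeff 1 (a ^ d 0 * b ^ d 1) := by
    intro d
    rw [hpr d]
    rfl
  have hne : (Finsupp.single 0 1 : Fin 2 →₀ ℕ) ≠ Finsupp.single 1 1 := by
    intro h
    have h1 := DFunLike.congr_fun h 0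
    rw [Finsupp.single_eq_same, Finsupp.single_eq_of_ne (by decide)] at h1
    exact one_ne_zero h1
  rw [PowerSeries.coeff, MvPowerSeries.coeff_subst (hasSubst_pair (hs_zero ha) (hs_zero hb)),
    finsum_eq_sum_of_support_subset (s := {Finsupp.single 0 1, Finsupp.single 1 1})]
  · rw [Finset.sum_pair hne, hd, hd, F.lin_coeff_X, F.lin_coeff_Y]
    have e1 : (Finsupp.single 0 1 : Fin 2 →₀ ℕ) 1 = 0 := Finsupp.single_eq_of_ne (by decide)
    have e2 : (Finsupp.single 1 1 : Fin 2 →₀ ℕ) 0 = 0 := Finsupp.single_eq_of_ne (by decide)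
    rw [Finsupp.single_eq_same, Finsupp.single_eq_same, e1, e2, pow_one, pow_one, pow_zero,
      pow_zero, one_mul, one_mul, mul_one, one_mul]
    rfl
  · intro d hd0
    rw [Function.mem_support, hd] at hd0
    by_contra hcon
    rw [Finset.coe_pair, Set.mem_insert_iff, Set.mem_singleton_iff, not_or] at hcon
    apply hd0
    by_cases h2 : 2 ≤ d 0 + d 1
    · rw [hz _ _ h2, mul_zero]
    · have h3 : d = 0 := by
        by_contra h4
        rcases Nat.eq_zero_or_pos (d 0) with h5 | h5
        · rcases Nat.eq_zero_or_pos (d 1) with h6 | h6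
          · apply h4
            ext s
            fin_cases s
            · exact h5
            · exact h6
          · apply hcon.2
            ext s
            fin_cases s
            · show d 0 = (Finsupp.single 1 1 : Fin 2 →₀ ℕ) 0
              rw [h5, Finsupp.single_eq_of_ne (by decide)]
            · show d 1 = (Finsupp.single 1 1 : Fin 2 →₀ ℕ) 1
              rw [Finsupp.single_eq_same]
              omega
        · apply hcon.1
          ext s
          fin_cases s
          · show d 0 = (Finsupp.single 0 1 : Fin 2 →₀ ℕ) 0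
            rw [Finsupp.single_eq_same]
            omega
          · show d 1 = (Finsupp.single 0 1 : Fin 2 →₀ ℕ) 1
            rw [Finsupp.single_eq_of_ne (by decide)]
            omega
      rw [h3, MvPowerSeries.coeff_zero_eq_constantCoeff_apply, F.zero_constantCoeff, zero_mul]

theorem coeff_one_mulSer {R : Type*} [CommRing R] (F : FormalGroup R) (n : ℕ) :
    coeff 1 (mulSer F n) = (n : R) := by
  induction n with
  | zero =>
    change coeff 1 (0 : R⟦X⟧) = _
    rw [map_zero, Nat.cast_zero]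
  | succ n ih =>
    change coeff 1 (MvPowerSeries.subst ![mulSer F n, (X : R⟦X⟧)] F.toPowerSeries : R⟦X⟧) = _
    rw [fix_lin F (cc_mulSer F n) PowerSeries.constantCoeff_X, ih, PowerSeries.coeff_one_X,
      Nat.cast_succ]

variable {L : Type*} [Field L] (p : ℕ) [Fact p.Prime] [CharP L p]

theorem subst_X_pow_char {h : ℕ} (f : L⟦X⟧) :
    f ^ p ^ h = PowerSeries.subst (X ^ p ^ h : L⟦X⟧) (PowerSeries.map (iterateFrobenius L p h) f) := by
  have hp : p ≠ 0 := (Fact.out : p.Prime).ne_zero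
  rw [← PowerSeries.expand_apply (p ^ h) (pow_ne_zero h hp), ← PowerSeries.map_expand]
  exact (MvPowerSeries.map_iterateFrobenius_expand p hp f h).symm

theorem fix_coeff {h : ℕ} {G : FormalGroup L} (hG : G.IsComm)
    (hG' : mulSer G p = (X : L⟦X⟧) ^ p ^ h) (e : Fin 2 →₀ ℕ) :
    MvPowerSeries.coeff e G.toPowerSeries ^ p ^ h = MvPowerSeries.coeff e G.toPowerSeries := by
  have hp : p ≠ 0 := (Fact.out : p.Prime).ne_zero
  have hq : p ^ h ≠ 0 := pow_ne_zero h hp
  have hX0 : PowerSeries.HasSubst (MvPowerSeries.X 0 : MvPowerSeries (Fin 2) L) :=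
    PowerSeries.HasSubst.X 0
  have hX1 : PowerSeries.HasSubst (MvPowerSeries.X 1 : MvPowerSeries (Fin 2) L) :=
    PowerSeries.HasSubst.X 1
  have h1 := (mulSer_isHom hG p).2
  rw [hG', PowerSeries.subst_pow (hs_F G), PowerSeries.subst_X (hs_F G),
    PowerSeries.subst_pow hX0, PowerSeries.subst_X hX0,
    PowerSeries.subst_pow hX1, PowerSeries.subst_X hX1] at h1
  have h2 : MvPowerSeries.subst ![(MvPowerSeries.X 0 : MvPowerSeries (Fin 2) L) ^ p ^ h,
      MvPowerSeries.X 1 ^ p ^ h] G.toPowerSeries =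
      MvPowerSeries.expand (p ^ h) hq G.toPowerSeries := by
    unfold MvPowerSeries.expand
    rw [MvPowerSeries.substAlgHom_apply]
    refine congrArg (fun z => MvPowerSeries.subst z G.toPowerSeries) ?_
    funext s
    fin_cases s <;> rfl
  rw [h2, ← MvPowerSeries.map_iterateFrobenius_expand p hp] at h1
  have h3 := congrArg (MvPowerSeries.coeff (p ^ h • e)) h1
  rw [MvPowerSeries.coeff_map, MvPowerSeries.coeff_expand_smul, iterateFrobenius_def] at h3
  exact h3

theorem hom_fix {h : ℕ} {G H : FormalGroup L} (hG' : mulSer G p = (X : L⟦X⟧) ^ p ^ h)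
    (hH' : mulSer H p = (X : L⟦X⟧) ^ p ^ h) {θ : L⟦X⟧} (hθ : IsHom G H θ) (i : ℕ) :
    coeff i θ ^ p ^ h = coeff i θ := by
  have hp : p ≠ 0 := (Fact.out : p.Prime).ne_zero
  have hq : p ^ h ≠ 0 := pow_ne_zero h hp
  have h1 := hθ.mulSer p
  rw [hG', hH', PowerSeries.subst_pow (hs_zero hθ.1), PowerSeries.subst_X (hs_zero hθ.1),
    ← PowerSeries.expand_apply (p ^ h) hq, subst_X_pow_char p,
    ← PowerSeries.expand_apply (p ^ h) hq] at h1
  have h2 := congrArg (coeff (p ^ h * i)) h1
  rw [PowerSeries.coeff_expand_mul, PowerSeries.coeff_expand_mul, PowerSeries.coeff_map,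
    iterateFrobenius_def] at h2
  exact h2.symm

end Pool.Agent.H74.LA
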