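import Pool.Agent.H74.LA.Fix
import Pool.Agent.H6.LZ.Laz
import Pool.Agent.H49.LX.Cnj
import Pool.Agent.H49.LX.Mul

/-!
PROOF (helper6 / helper22).  By degrees; all coefficients of `u` satisfy `c ^ q = c` (so that conjugation by the partial `u`
keeps `[p] = x ^ q`).  If `G ≡ H` modulo degree `r`, then `G - H ≡ a C_r` (`LZ6.lazard`, the difference is a symmetric
cocycle with values in the additive group `{c | c ^ q = c}`).  `r` not a power of `p`: correct by `x + a' x ^ r`.
`r = p ^ j`: `[p]_G - [p]_H ≡ - a x ^ r` modulo degree `r + 1`, so `a = 0`.  Limit of the corrections.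
-/

open PowerSeries

namespace Pool.Agent.H74.LA

open Pool.Agent.H13.CA Pool.Agent.H49.LX

private theorem lz_mulSer_of_subst {R : Type*} [CommRing R] {F G : FormalGroup R} {n q : ℕ} {β : R⟦X⟧}
    (hβ : IsHom F G β) (hu : IsUnit (coeff 1 β)) (h1 : (β.subst (mulSer F n) : R⟦X⟧) = β ^ q) :
    mulSer G n = (X : R⟦X⟧) ^ q := by
  have h2 := hβ.mulSer n
  rw [h1] at h2
  obtain ⟨β', hβ', h3, h4⟩ := hβ.inv hu
  have h5 := congrArg (PowerSeries.subst β') h2
  rw [subst_pow (hs_zero hβ'.1), subst_subst' hβ.1 hβ'.1, h4, X_subst] at h5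
  exact h5.symm

private theorem lz_lin {R : Type*} [CommRing R] {d : ℕ} (hd : 2 ≤ d) (c : R) :
    constantCoeff (X + C c * X ^ d : R⟦X⟧) = 0 ∧ coeff 1 (X + C c * X ^ d : R⟦X⟧) = 1 := by
  constructor
  · rw [map_add, map_mul, map_pow, constantCoeff_X, zero_pow (by omega), mul_zero, add_zero]
  · rw [map_add, coeff_one_X, coeff_C_mul, coeff_X_pow, if_neg (by omega), mul_zero, add_zero]

variable {L : Type*} [Field L] (p : ℕ) [Fact p.Prime] [CharP L p]

/-- the additive group of the `c` with `c ^ (p ^ h) = c` -/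
private def lzV (L : Type*) [Field L] (p : ℕ) [Fact p.Prime] [CharP L p] (h : ℕ) : AddSubgroup L where
  carrier := {c | c ^ p ^ h = c}
  add_mem' := by
    intro a b ha hb
    change (a + b) ^ p ^ h = a + b
    have ha' : a ^ p ^ h = a := ha
    have hb' : b ^ p ^ h = b := hb
    rw [add_pow_char_pow, ha', hb']
  zero_mem' := zero_pow (pow_ne_zero h (Fact.out : p.Prime).ne_zero)
  neg_mem' := by
    intro a ha
    change (-a) ^ p ^ h = -a
    have ha' : a ^ p ^ h = a := ha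
    have h1 : (a + -a) ^ p ^ h = a ^ p ^ h + (-a) ^ p ^ h := add_pow_char_pow _ _ _ _
    rw [add_neg_cancel, zero_pow (pow_ne_zero h (Fact.out : p.Prime).ne_zero), ha'] at h1
    exact (neg_eq_of_add_eq_zero_right h1.symm).symm

private theorem mem_lzV {h : ℕ} {c : L} : c ∈ lzV L p h ↔ c ^ p ^ h = c := Iff.rfl

/-- one step -/
private theorem lz_step {h d : ℕ} (hd : 2 ≤ d)
    {G H : FormalGroup L} (hG : G.IsComm) (hH : H.IsComm)
    (hG' : mulSer G p = (X : L⟦X⟧) ^ p ^ h) (hH' : mulSer H p = (X : L⟦X⟧) ^ p ^ h)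
    (hGH : EqD d G.toPowerSeries H.toPowerSeries) :
    ∃ (G' : FormalGroup L) (c : L), IsHom G G' (X + C c * X ^ d) ∧ G'.IsComm ∧
      mulSer G' p = (X : L⟦X⟧) ^ p ^ h ∧ EqD (d + 1) G'.toPowerSeries H.toPowerSeries := by
  obtain ⟨a, ha⟩ : ∃ a : ℕ → lzV L p h, ∀ i, (a i : L) =
      c2 G.toPowerSeries i (d - i) - c2 H.toPowerSeries i (d - i) := by
    refine ⟨fun i => ⟨c2 G.toPowerSeries i (d - i) - c2 H.toPowerSeries i (d - i), ?_⟩, fun i => rfl⟩
    exact AddSubgroup.sub_mem _ (fix_coeff p hG hG' _) (fix_coeff p hH hH' _)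
  have hV : ∀ v : lzV L p h, p • v = 0 := by
    intro v
    apply Subtype.ext
    rw [AddSubgroup.coe_nsmul, nsmul_eq_mul, CharP.cast_eq_zero, zero_mul]
    rfl
  have hlz := LZ6.lazard hV d hd a (by
      intro i hi hid
      apply Subtype.ext
      rw [ha, ha, cmp_symm hG, cmp_symm hH, Nat.sub_sub_self hid.le]) (by
      intro i j hi hj hij
      apply Subtype.ext
      rw [AddSubgroup.coe_nsmul, AddSubgroup.coe_nsmul, ha, ha]
      exact cmp_assoc hd hGH hi hj hij)
  have key : ∃ c : L, c ∈ lzV L p h ∧ ∀ i, 0 < i → i < d →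
      c2 G.toPowerSeries i (d - i) - c2 H.toPowerSeries i (d - i) = d.choose i • c := by
    rcases hlz with ⟨⟨m, hm⟩, c, hc⟩ | ⟨-, c, hc⟩
    · refine ⟨0, AddSubgroup.zero_mem _, fun i hi hid => ?_⟩
      have hm1 : 1 ≤ m := by
        rcases Nat.eq_zero_or_pos m with h1 | h1
        · rw [h1, pow_zero] at hm
          omega
        · exact h1
      have h1 := (mul_cmp hd hGH p).2
      rw [hG', hH', sub_self] at h1
      have h2 : ∑ s ∈ Finset.range p, ∑ i ∈ Finset.Ioo 0 d,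
          (s : L) ^ i * (c2 G.toPowerSeries i (d - i) - c2 H.toPowerSeries i (d - i)) =
          (∑ s ∈ Finset.range p, ∑ i ∈ Finset.Ioo 0 (p ^ m),
            (s : L) ^ i * ((((p ^ m).choose i / p : ℕ)) : L)) * (c : L) := by
        rw [Finset.sum_mul]
        refine Finset.sum_congr rfl fun s _ => ?_
        rw [Finset.sum_mul, ← hm]
        refine Finset.sum_congr rfl fun j hj => ?_
        rw [Finset.mem_Ioo] at hj
        rw [← ha, hc j hj.1 hj.2, AddSubgroup.coe_nsmul, nsmul_eq_mul, mul_assoc]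
      rw [h2, sum_pow p hm1, neg_one_mul] at h1
      have h3 : (c : L) = 0 := by
        rw [← neg_eq_zero]
        exact h1.symm
      rw [← ha, hc i hi hid, AddSubgroup.coe_nsmul, h3, smul_zero, smul_zero]
    · refine ⟨c, c.2, fun i hi hid => ?_⟩
      rw [← ha, hc i hi hid, AddSubgroup.coe_nsmul]
  obtain ⟨c, hcV, hc⟩ := key
  have hnV : -c ∈ lzV L p h := AddSubgroup.neg_mem _ hcV
  obtain ⟨l0, l1⟩ := lz_lin hd (-c)
  have hu : IsUnit (coeff 1 (X + C (-c) * X ^ d : L⟦X⟧)) := by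
    rw [l1]
    exact isUnit_one
  obtain ⟨G', hG1, hG2⟩ := exists_conj G l0 hu
  refine ⟨G', -c, hG1, hG2 hG, ?_, ?_⟩
  · refine lz_mulSer_of_subst hG1 hu ?_
    have hq : p ^ h ≠ 0 := pow_ne_zero h (Fact.out : p.Prime).ne_zero
    have hX : constantCoeff ((X : L⟦X⟧) ^ p ^ h) = 0 := by
      rw [map_pow, constantCoeff_X, zero_pow hq]
    rw [hG', ← PowerSeries.smul_eq_C_mul, PowerSeries.subst_add (hs_zero hX),
      PowerSeries.subst_smul (hs_zero hX), PowerSeries.subst_pow (hs_zero hX),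
      PowerSeries.subst_X (hs_zero hX), PowerSeries.smul_eq_C_mul]
    have : CharP L⟦X⟧ p := charP_of_injective_ringHom (f := (C : L →+* L⟦X⟧)) PowerSeries.C_injective p
    rw [PowerSeries.smul_eq_C_mul, add_pow_char_pow, mul_pow, ← map_pow, (mem_lzV p).1 hnV]
    ring
  · obtain ⟨e1, e2⟩ := conj_deg hd hG1
    intro i j hij
    rcases Nat.lt_or_ge (i + j) d with h1 | h1
    · rw [← e1 i j h1]
      exact hGH i j h1
    · have h2 : j = d - i := by omega
      rcases Nat.eq_zero_or_pos i with h3 | h3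
      · subst h3
        rw [c2_right G' (by omega), c2_right H (by omega)]
      · rcases Nat.eq_zero_or_pos j with h4 | h4
        · subst h4
          rw [c2_left G' (by omega), c2_left H (by omega)]
        · have h5 := hc i h3 (by omega)
          rw [h2, e2 i h3 (by omega), smul_neg, ← h5]
          ring

private theorem lz_dvd_subst {R : Type*} [CommRing R] {s v : R⟦X⟧} {N : ℕ} (hs : (X : R⟦X⟧) ^ N ∣ s)
    (hv : constantCoeff v = 0) : (X : R⟦X⟧) ^ N ∣ (s.subst v : R⟦X⟧) := by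
  obtain ⟨t, rfl⟩ := hs
  rw [PowerSeries.subst_mul (hs_zero hv), PowerSeries.subst_pow (hs_zero hv),
    PowerSeries.subst_X (hs_zero hv)]
  exact Dvd.dvd.mul_right (pow_dvd_pow_of_dvd (PowerSeries.X_dvd_iff.2 hv) N) _

/-- the state after `d` steps -/
private structure LzSt (L : Type*) [Field L] (p h d : ℕ) (G H : FormalGroup L) where
  G' : FormalGroup L
  u : L⟦X⟧
  hom : IsHom G G' u
  one : coeff 1 u = 1
  comm : G'.IsComm
  mul : mulSer G' p = (X : L⟦X⟧) ^ p ^ h
  eqd : EqD d G'.toPowerSeries H.toPowerSeries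

private theorem lz_next {h d : ℕ} (hd : 2 ≤ d) {G H : FormalGroup L} (hH : H.IsComm)
    (hH' : mulSer H p = (X : L⟦X⟧) ^ p ^ h) (S : LzSt L p h d G H) :
    ∃ T : LzSt L p h (d + 1) G H, (X : L⟦X⟧) ^ d ∣ T.u - S.u := by
  obtain ⟨G', c, h1, h2, h3, h4⟩ := lz_step p hd S.comm hH S.mul hH' S.eqd
  have h5 : ((X + C c * X ^ d : L⟦X⟧).subst S.u : L⟦X⟧) = S.u + C c * S.u ^ d := by
    rw [← PowerSeries.smul_eq_C_mul, PowerSeries.subst_add (hs_zero S.hom.1),
      PowerSeries.subst_smul (hs_zero S.hom.1), PowerSeries.subst_pow (hs_zero S.hom.1),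
      PowerSeries.subst_X (hs_zero S.hom.1), PowerSeries.smul_eq_C_mul]
  have h6 : (X : L⟦X⟧) ^ d ∣ C c * S.u ^ d :=
    Dvd.dvd.mul_left (pow_dvd_pow_of_dvd (PowerSeries.X_dvd_iff.2 S.hom.1) d) _
  have h7 := S.hom.comp h1
  rw [h5] at h7
  refine ⟨⟨G', _, h7, ?_, h2, h3, h4⟩, ?_⟩
  · obtain ⟨w, hw⟩ := h6
    rw [hw, map_add, S.one, PowerSeries.coeff_X_pow_mul', if_neg (by omega), add_zero]
  · show (X : L⟦X⟧) ^ d ∣ S.u + C c * S.u ^ d - S.u
    rw [add_sub_cancel_left]
    exact h6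

theorem lz {L : Type*} [Field L] (p : ℕ) [Fact p.Prime] [CharP L p] {h : ℕ} (hh : 1 ≤ h)
    {G H : FormalGroup L} (hG : G.IsComm) (hH : H.IsComm)
    (hG' : mulSer G p = (X : L⟦X⟧) ^ p ^ h) (hH' : mulSer H p = (X : L⟦X⟧) ^ p ^ h) :
    ∃ u : L⟦X⟧, IsHom G H u ∧ coeff 1 u = 1 := by
  classical
  have h0 : EqD 2 G.toPowerSeries H.toPowerSeries := by
    intro i j hij
    have h1 : (i = 0 ∧ j = 0) ∨ (i = 1 ∧ j = 0) ∨ (i = 0 ∧ j = 1) := by omega
    have e0 : ∀ F : FormalGroup L, c2 F.toPowerSeries 0 0 = 0 := by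
      intro F
      rw [c2, Finsupp.single_zero, Finsupp.single_zero, add_zero,
        MvPowerSeries.coeff_zero_eq_constantCoeff_apply, F.zero_constantCoeff]
    have e1 : ∀ F : FormalGroup L, c2 F.toPowerSeries 1 0 = 1 := by
      intro F
      rw [c2, Finsupp.single_zero, add_zero, F.lin_coeff_X]
    have e2 : ∀ F : FormalGroup L, c2 F.toPowerSeries 0 1 = 1 := by
      intro F
      rw [c2, Finsupp.single_zero, zero_add, F.lin_coeff_Y]
    rcases h1 with ⟨rfl, rfl⟩ | ⟨rfl, rfl⟩ | ⟨rfl, rfl⟩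
    · rw [e0, e0]
    · rw [e1, e1]
    · rw [e2, e2]
  let S0 : LzSt L p h 2 G H := ⟨G, X, IsHom.refl G, coeff_one_X, hG, hG', h0⟩
  choose nx hnx using fun (d : ℕ) (S : LzSt L p h (d + 2) G H) =>
    lz_next p (by omega : 2 ≤ d + 2) hH hH' S
  let S : (d : ℕ) → LzSt L p h (d + 2) G H := fun d =>
    Nat.rec (motive := fun d => LzSt L p h (d + 2) G H) S0 (fun d T => nx d T) d
  have hS : ∀ d, (X : L⟦X⟧) ^ (d + 2) ∣ (S (d + 1)).u - (S d).u := fun d => hnx d (S d)
  have hS' : ∀ d e, (X : L⟦X⟧) ^ (d + 2) ∣ (S (d + e)).u - (S d).u := by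
    intro d e
    induction e with
    | zero =>
      rw [add_zero, sub_self]
      exact dvd_zero _
    | succ e ih =>
      have h1 := Dvd.dvd.trans (pow_dvd_pow (X : L⟦X⟧) (by omega : d + 2 ≤ d + e + 2)) (hS (d + e))
      have h2 := dvd_add h1 ih
      rw [sub_add_sub_cancel] at h2
      exact h2
  -- the limit
  let u : L⟦X⟧ := PowerSeries.mk fun n => coeff n (S n).u
  have hu : ∀ d, (X : L⟦X⟧) ^ (d + 2) ∣ u - (S d).u := by
    intro d
    rw [PowerSeries.X_pow_dvd_iff]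
    intro n hn
    rw [map_sub, coeff_mk]
    rcases Nat.le_total n d with h1 | h1
    · obtain ⟨e, rfl⟩ := Nat.exists_eq_add_of_le h1
      have h2 := PowerSeries.X_pow_dvd_iff.1 (hS' n e) n (by omega)
      rw [map_sub] at h2
      rw [← neg_sub, h2, neg_zero]
    · obtain ⟨e, rfl⟩ := Nat.exists_eq_add_of_le h1
      have h2 := PowerSeries.X_pow_dvd_iff.1 (hS' d e) (d + e) (by omega)
      rw [map_sub] at h2
      exact h2
  have hu0 : constantCoeff u = 0 := by
    have h1 := PowerSeries.X_pow_dvd_iff.1 (hu 0) 0 (by omega)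
    rw [map_sub, coeff_zero_eq_constantCoeff_apply, coeff_zero_eq_constantCoeff_apply,
      (S 0).hom.1, sub_zero] at h1
    exact h1
  have hu1 : coeff 1 u = 1 := by
    have h1 := PowerSeries.X_pow_dvd_iff.1 (hu 0) 1 (by omega)
    rw [map_sub, (S 0).one, sub_eq_zero] at h1
    exact h1
  have huu : IsUnit (coeff 1 u) := by
    rw [hu1]
    exact isUnit_one
  obtain ⟨G₁, hG1, -⟩ := exists_conj G hu0 huu
  have hEq : G₁ = H := by
    apply eq_of_EqD
    intro d
    have key : EqD (d + 2) G₁.toPowerSeries H.toPowerSeries := by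
      have h1 : IsUnit (coeff 1 (S d).u) := by
        rw [(S d).one]
        exact isUnit_one
      obtain ⟨v, hv, hv1, hv2⟩ := (S d).hom.inv h1
      have h2 := hv.comp hG1
      have h3 : (X : L⟦X⟧) ^ (d + 2) ∣ (u.subst v : L⟦X⟧) - X := by
        have h4 := lz_dvd_subst (hu d) hv.1
        have h5 : ((u - (S d).u).subst v : L⟦X⟧) = u.subst v - (S d).u.subst v := by
          rw [← PowerSeries.coe_substAlgHom (hs_zero hv.1), map_sub]
        rw [h5, hv2] at h4
        exact h4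
      have h6 := conj_low h2 h3
      intro i j hij
      rw [← h6 i j hij]
      exact (S d).eqd i j hij
    intro i j hij
    exact key i j (by omega)
  subst hEq
  exact ⟨u, hG1, hu1⟩

end Pool.Agent.H74.LA
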