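import Pool.Agent.H74.LA.Nrm
import Pool.Agent.H74.LA.Lz

/-!
# Lazard: isomorphisms with a prescribed linear coefficient
-/

open PowerSeries

namespace Pool.Agent.H74.LA

open Pool.Agent.H13.CA

variable {L : Type*} [Field L] (p : ℕ) [Fact p.Prime] [CharP L p]

/-- Lazard, with prescribed linear coefficient `b`. -/
theorem lazard_iso [IsSepClosed L] {h : ℕ} (hh : 1 ≤ h) {G H : FormalGroup L} (hG : G.IsComm)
    (hH : H.IsComm) (hG' : HasHeight p h G) (hH' : HasHeight p h H) {b : L} (hb : b ≠ 0)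
    (hb' : b * PowerSeries.coeff (p ^ h) (mulSer G p) =
      PowerSeries.coeff (p ^ h) (mulSer H p) * b ^ p ^ h) :
    ∃ β : PowerSeries L, IsHom G H β ∧ PowerSeries.coeff 1 β = b := by
  obtain ⟨G₁, β₁, g1, g2, g3, g4, g5⟩ := exists_norm p hh hG hG'
  obtain ⟨H₁, β₂, k1, k2, k3, k4, k5⟩ := exists_norm p hh hH hH'
  obtain ⟨c, hc⟩ : ∃ c : L, c = b * coeff 1 β₂ / coeff 1 β₁ := ⟨_, rfl⟩
  have hc0 : c ≠ 0 := by
    rw [hc]
    exact div_ne_zero (mul_ne_zero hb k2) g2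
  have hq : p ^ h ≠ 0 := pow_ne_zero _ (Fact.out : p.Prime).ne_zero
  have hcq : c ^ p ^ h = c := by
    have hG0 : coeff (p ^ h) (mulSer G p) ≠ 0 := hG'.2.ne_zero
    have hH0 : coeff (p ^ h) (mulSer H p) ≠ 0 := hH'.2.ne_zero
    have hb0 : b ^ p ^ h ≠ 0 := pow_ne_zero _ hb
    rw [hc, div_pow, mul_pow, ← g5, ← k5, div_eq_div_iff (mul_ne_zero g2 hG0) g2]
    linear_combination (-(coeff 1 β₂ * coeff 1 β₁)) * hb'
  have hf0 : constantCoeff (C c * X : L⟦X⟧) = 0 := by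
    rw [map_mul, constantCoeff_X, mul_zero]
  have hf1 : coeff 1 (C c * X : L⟦X⟧) = c := by
    rw [coeff_C_mul, coeff_one_X, mul_one]
  obtain ⟨G₂, m1, m2⟩ := exists_conj G₁ hf0 (by rw [hf1]; exact hc0.isUnit)
  have hX : constantCoeff ((X : L⟦X⟧) ^ p ^ h) = 0 := by
    rw [map_pow, constantCoeff_X, zero_pow hq]
  have m3 : mulSer G₂ p = (X : L⟦X⟧) ^ p ^ h := by
    apply mulSer_of_subst m1 (by rw [hf1]; exact hc0.isUnit)
    rw [g4, subst_mul (hs_zero hX), subst_C, subst_X (hs_zero hX), mul_pow, ← map_pow, hcq]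
    rfl
  obtain ⟨u, u1, u2⟩ := lz p hh (m2 g3) k3 m3 k4
  obtain ⟨β₃, n1, n2, n3⟩ := k1.inv k2.isUnit
  have n4 : coeff 1 β₃ * coeff 1 β₂ = 1 := by
    rw [← coeff_one_subst k1.1 n1.1, n2, coeff_one_X]
  refine ⟨_, ((g1.comp m1).comp u1).comp n1, ?_⟩
  rw [coeff_one_subst ((g1.comp m1).comp u1).1 n1.1, coeff_one_subst (g1.comp m1).1 u1.1,
    coeff_one_subst g1.1 m1.1, hf1, u2, hc, one_mul]
  have : coeff 1 β₁ ≠ 0 := g2
  field_simp
  linear_combination n4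

end Pool.Agent.H74.LA
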