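import Pool.Agent.H74.LA.Fix
import Pool.Agent.H74.MO.Hgt
import Pool.Agent.H74.MO.Sol

/-!
# Conjugation to `[p] = x ^ q`
-/

open PowerSeries

namespace Pool.Agent.H74.LA

open Pool.Agent.H13.CA

/-- `g = (wOf q g) (x ^ q)` -/
noncomputable def wOf {R : Type*} [CommRing R] (q : ℕ) (g : R⟦X⟧) : R⟦X⟧ :=
  PowerSeries.mk fun i => coeff (q * i) g

theorem coeff_wOf {R : Type*} [CommRing R] (q i : ℕ) (g : R⟦X⟧) :
    coeff i (wOf q g) = coeff (q * i) g := coeff_mk _ _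

theorem map_wOf {R S : Type*} [CommRing R] [CommRing S] (φ : R →+* S) (q : ℕ) (g : R⟦X⟧) :
    map φ (wOf q g) = wOf q (map φ g) := by
  ext i
  rw [coeff_map, coeff_wOf, coeff_wOf, coeff_map]

theorem subst_wOf {R : Type*} [CommRing R] {q : ℕ} (hq : q ≠ 0) {g : R⟦X⟧}
    (hg : ∀ i, ¬ q ∣ i → coeff i g = 0) :
    ((wOf q g).subst (X ^ q : R⟦X⟧) : R⟦X⟧) = g := by
  ext n
  rw [coeff_subst_X_pow hq]
  split_ifs with h
  · obtain ⟨m, rfl⟩ := h
    rw [Nat.mul_div_cancel_left _ (Nat.pos_of_ne_zero hq), coeff_wOf]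
    rfl
  · exact (hg n h).symm

theorem subst_X_pow_inj {R : Type*} [CommRing R] {q : ℕ} (hq : q ≠ 0) {f g : R⟦X⟧}
    (h : (f.subst (X ^ q : R⟦X⟧) : R⟦X⟧) = g.subst (X ^ q : R⟦X⟧)) : f = g := by
  ext n
  have h1 := congrArg (coeff (q * n)) h
  have h2 : ∀ f : R⟦X⟧, coeff (q * n) (f.subst (X ^ q : R⟦X⟧) : R⟦X⟧) = coeff n f := by
    intro f
    rw [coeff_subst_X_pow hq, if_pos (Dvd.intro n rfl),
      Nat.mul_div_cancel_left _ (Nat.pos_of_ne_zero hq)]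
    rfl
  rw [h2, h2] at h1
  exact h1

/-- `β ([p]_F) = β ^ q` for a homomorphism `β : F → G`, `[p]_G = x ^ q` -/
theorem subst_mulSer_eq {R : Type*} [CommRing R] {F G : FormalGroup R} {n q : ℕ}
    (hG : mulSer G n = (X : R⟦X⟧) ^ q) {β : R⟦X⟧} (hβ : IsHom F G β) :
    (β.subst (mulSer F n) : R⟦X⟧) = β ^ q := by
  have h := hβ.mulSer n
  have hs : PowerSeries.HasSubst β := hs_zero hβ.1
  rw [h, hG, subst_pow hs, subst_X hs]

variable {L : Type*} [Field L] (p : ℕ) [Fact p.Prime] [CharP L p]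

/-- the functional equation `β (W y) = β^(q) y` -/
theorem rel_of_hom {h : ℕ} {F G : FormalGroup L}
    (hF : ∀ i, ¬ p ^ h ∣ i → coeff i (mulSer F p) = 0)
    (hG : mulSer G p = (X : L⟦X⟧) ^ p ^ h) {β : L⟦X⟧} (hβ : IsHom F G β) :
    (β.subst (wOf (p ^ h) (mulSer F p)) : L⟦X⟧) = map (iterateFrobenius L p h) β := by
  have hq : p ^ h ≠ 0 := pow_ne_zero _ (Fact.out : p.Prime).ne_zero
  have hW : constantCoeff (wOf (p ^ h) (mulSer F p)) = 0 := by
    rw [← coeff_zero_eq_constantCoeff_apply, coeff_wOf, mul_zero,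
      coeff_zero_eq_constantCoeff_apply, cc_mulSer]
  apply subst_X_pow_inj hq
  rw [← subst_X_pow_char, ← subst_mulSer_eq hG hβ]
  have hX : constantCoeff ((X : L⟦X⟧) ^ p ^ h) = 0 := by
    rw [map_pow, constantCoeff_X, zero_pow hq]
  rw [subst_subst' hW hX, subst_wOf hq hF]

theorem mulSer_of_subst {R : Type*} [CommRing R] {F G : FormalGroup R} {n q : ℕ} {β : R⟦X⟧}
    (hβ : IsHom F G β) (hu : IsUnit (coeff 1 β)) (h1 : (β.subst (mulSer F n) : R⟦X⟧) = β ^ q) :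
    mulSer G n = (X : R⟦X⟧) ^ q := by
  have h2 := hβ.mulSer n
  rw [h1] at h2
  obtain ⟨β', hβ', h3, h4⟩ := hβ.inv hu
  have h5 := congrArg (PowerSeries.subst β') h2
  rw [subst_pow (hs_zero hβ'.1), subst_subst' hβ.1 hβ'.1, h4, X_subst] at h5
  exact h5.symm

theorem coeff_one_subst {R : Type*} [CommRing R] {f g : R⟦X⟧} (hg : constantCoeff g = 0)
    (hf : constantCoeff f = 0) : coeff 1 (f.subst g : R⟦X⟧) = coeff 1 f * coeff 1 g := by
  rw [MO.coeff_subst_eq_Icc (by rw [coeff_zero_eq_constantCoeff_apply, hg]) f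
    (by rw [coeff_zero_eq_constantCoeff_apply, hf]), Finset.Icc_self, Finset.sum_singleton, pow_one]

/-- conjugation to `[p] = x ^ q` over a separably closed field -/
theorem exists_norm [IsSepClosed L] {h : ℕ} (hh : 1 ≤ h) {G : FormalGroup L} (hG : G.IsComm)
    (hG' : HasHeight p h G) : ∃ (G' : FormalGroup L) (β : L⟦X⟧), IsHom G G' β ∧
      coeff 1 β ≠ 0 ∧ G'.IsComm ∧ mulSer G' p = (X : L⟦X⟧) ^ p ^ h ∧
      coeff 1 β * coeff (p ^ h) (mulSer G p) = coeff 1 β ^ p ^ h := by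
  have hq : p ^ h ≠ 0 := pow_ne_zero _ (Fact.out : p.Prime).ne_zero
  have hdiv := MO.hgt p hG hG'.1
  have hW0 : coeff 0 (wOf (p ^ h) (mulSer G p)) = 0 := by
    rw [coeff_wOf, mul_zero, coeff_zero_eq_constantCoeff_apply, cc_mulSer]
  have hW1 : coeff 1 (wOf (p ^ h) (mulSer G p)) ≠ 0 := by
    rw [coeff_wOf, mul_one]
    exact hG'.2.ne_zero
  obtain ⟨β, hβ0, hβ1, hβ⟩ := MO.exists_sol p hh hW0 hW1
  have hβc : constantCoeff β = 0 := by
    rw [← coeff_zero_eq_constantCoeff_apply]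
    exact hβ0
  obtain ⟨G', hG1, hG2⟩ := exists_conj G hβc hβ1.isUnit
  have hWc : constantCoeff (wOf (p ^ h) (mulSer G p)) = 0 := by
    rw [← coeff_zero_eq_constantCoeff_apply]
    exact hW0
  have hX : constantCoeff ((X : L⟦X⟧) ^ p ^ h) = 0 := by
    rw [map_pow, constantCoeff_X, zero_pow hq]
  have h1 : (β.subst (mulSer G p) : L⟦X⟧) = β ^ p ^ h := by
    rw [subst_X_pow_char p β, ← hβ, subst_subst' hWc hX, subst_wOf hq hdiv]
  refine ⟨G', β, hG1, hβ1, hG2 hG, ?_, ?_⟩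
  · exact mulSer_of_subst hG1 hβ1.isUnit h1
  · have h2 := congrArg (coeff 1) hβ
    rw [MO.coeff_subst_eq_Icc hW0 β hβ0, Finset.Icc_self, Finset.sum_singleton, pow_one, coeff_map,
      iterateFrobenius_def, coeff_wOf, mul_one] at h2
    exact h2

end Pool.Agent.H74.LA
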